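import Pool.Agent.H.MP_8d5739_co.B

set_option autoImplicit false

namespace Pool.Agent.Results.MP_8d5739_co.Tors

open Pool.Agent.Lib.helper7.OrdHom Pool.Agent.H.MP_8d5739_co

theorem result : ∃ x : Hom (PiLe 9 3) 3, x ≠ 0 ∧ 2 • x = 0 := main

end Pool.Agent.Results.MP_8d5739_co.Tors
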